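import Pool.Agent.L0h45.LR.Stm

/-! # LR/WEY: Weyl's inequality for quadratic polynomials -/

set_option autoImplicit false
set_option linter.all false

open Finset
open scoped Classical

namespace Pool.Agent.L0h71.LR

open Pool.Agent.L0h45.LR

theorem ex_add (s t : ℝ) : ex (s + t) = ex s * ex t := by
  unfold ex
  rw [← Complex.exp_add]
  congr 1
  push_cast
  ring

theorem norm_ex (t : ℝ) : ‖ex t‖ = 1 := by
  unfold ex
  rw [show (2 * Real.pi * t * Complex.I : ℂ) = ((2 * Real.pi * t : ℝ) : ℂ) * Complex.I by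
    push_cast; ring]
  exact Complex.norm_exp_ofReal_mul_I _

theorem conj_ex (t : ℝ) : (starRingEnd ℂ) (ex t) = ex (-t) := by
  unfold ex
  rw [← Complex.exp_conj]
  congr 1
  rw [map_mul, map_mul, map_mul, Complex.conj_I, Complex.conj_ofReal, Complex.conj_ofReal,
    Complex.conj_ofNat]
  push_cast
  ring

theorem dn_nonneg (t : ℝ) : 0 ≤ dn t := abs_nonneg _

theorem dn_pos {x : ℕ} {k : ℤ} (hx : 1 ≤ x) (h : ¬ (x : ℤ) ∣ k) : 0 < dn ((k : ℝ) / x) := by
  have hx0 : (x : ℝ) ≠ 0 := by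
    have : 0 < x := hx
    positivity
  refine lt_of_le_of_ne (abs_nonneg _) fun h0 => h ?_
  have h1 : (k : ℝ) / x - round ((k : ℝ) / x) = 0 := abs_eq_zero.1 h0.symm
  have h2 : (k : ℝ) = x * round ((k : ℝ) / x) := by
    rw [sub_eq_zero] at h1
    rw [← h1]
    field_simp
  exact ⟨round ((k : ℝ) / x), by exact_mod_cast h2⟩

/-- the differences -/
theorem sq_le (f : ℤ → ℂ) (u : ℤ) (n : ℕ) :
    ‖∑ γ ∈ Ioc u (u + n), f γ‖ ^ 2 ≤ ∑ j ∈ Ioo (-(n : ℤ)) n,
      ‖∑ γ ∈ (Ioc u (u + n)).filter (fun γ => γ + j ∈ Ioc u (u + n)),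
        f (γ + j) * (starRingEnd ℂ) (f γ)‖ := by
  have h1 : ‖∑ γ ∈ Ioc u (u + n), f γ‖ ^ 2 =
      ‖(∑ γ ∈ Ioc u (u + n), f γ) * (starRingEnd ℂ) (∑ γ ∈ Ioc u (u + n), f γ)‖ := by
    rw [norm_mul, RCLike.norm_conj, sq]
  rw [h1, map_sum, Finset.sum_mul_sum, ← Finset.sum_product']
  have h2 : ∀ p ∈ (Ioc u (u + n)) ×ˢ (Ioc u (u + n)), p.1 - p.2 ∈ Ioo (-(n : ℤ)) n := by
    intro p hp
    simp only [mem_product, mem_Ioc] at hp
    simp only [mem_Ioo]
    omega
  rw [← Finset.sum_fiberwise_of_maps_to h2]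
  refine (norm_sum_le _ _).trans (Finset.sum_le_sum fun j _ => le_of_eq ?_)
  congr 1
  refine Finset.sum_nbij' (fun p => p.2) (fun γ => (γ + j, γ)) ?_ ?_ ?_ ?_ ?_
  · rintro ⟨a, b⟩ hp
    simp only [mem_filter, mem_product] at hp ⊢
    refine ⟨hp.1.2, ?_⟩
    rw [show b + j = a by omega]
    exact hp.1.1
  · intro γ hγ
    simp only [mem_filter, mem_product] at hγ ⊢
    exact ⟨⟨hγ.2, hγ.1⟩, by omega⟩
  · rintro ⟨a, b⟩ hp
    simp only [mem_filter, mem_product] at hp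
    simp only [Prod.mk.injEq, and_true]
    omega
  · intro γ hγ
    rfl
  · rintro ⟨a, b⟩ hp
    simp only [mem_filter, mem_product] at hp
    simp only
    rw [show b + j = a by omega]

theorem filter_Ioc (u j : ℤ) (n : ℕ) (h1 : -(n : ℤ) < j) (h2 : j < n) :
    ∃ (a : ℤ) (k : ℕ), (Ioc u (u + n)).filter (fun γ => γ + j ∈ Ioc u (u + n)) =
      Ioc a (a + k) := by
  rcases le_or_gt 0 j with hj | hj
  · refine ⟨u, (n - j).toNat, ?_⟩
    ext γ
    simp only [mem_filter, mem_Ioc]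
    omega
  · refine ⟨u - j, (n + j).toNat, ?_⟩
    ext γ
    simp only [mem_filter, mem_Ioc]
    omega

theorem card_mult (n q : ℕ) (hq : 0 < q) :
    (((Ioo (-(n : ℤ)) n).filter (fun j => (q : ℤ) ∣ j)).card : ℝ) ≤ 2 * n / q + 1 := by
  have h1 : ((Ioo (-(n : ℤ)) n).filter (fun j => (q : ℤ) ∣ j)).card ≤
      ((Ioc (-(n : ℤ)) n).filter (fun j => (q : ℤ) ∣ j)).card := by
    apply Finset.card_le_card
    intro j hj
    simp only [mem_filter, mem_Ioo, mem_Ioc] at hj ⊢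
    exact ⟨⟨hj.1.1, hj.1.2.le⟩, hj.2⟩
  have h2 := Int.Ioc_filter_dvd_card (-(n : ℤ)) n (r := (q : ℤ))
    (by exact_mod_cast hq)
  have h3 : ((((Ioc (-(n : ℤ)) n).filter (fun j => (q : ℤ) ∣ j)).card : ℤ) : ℚ) ≤
      2 * n / q + 1 := by
    rw [h2]
    push_cast
    apply max_le
    · have h4 := Int.floor_le ((n : ℚ) / q)
      have h5 := Int.lt_floor_add_one (-(n : ℚ) / q)
      have h6 : -(n : ℚ) / q = -((n : ℚ) / q) := neg_div _ _
      have h7 : 2 * (n : ℚ) / q = 2 * ((n : ℚ) / q) := mul_div_assoc _ _ _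
      rw [h7]
      rw [h6] at h5 ⊢
      linarith
    · positivity
  have h4 : (((Ioc (-(n : ℤ)) n).filter (fun j => (q : ℤ) ∣ j)).card : ℝ) ≤ 2 * n / q + 1 := by
    have h5 : ((((Ioc (-(n : ℤ)) n).filter (fun j => (q : ℤ) ∣ j)).card : ℚ) : ℝ) ≤
        ((2 * n / q + 1 : ℚ) : ℝ) := by
      exact_mod_cast h3
    push_cast at h5
    exact h5
  exact (Nat.cast_le.2 h1).trans h4

/-- several periods -/
theorem per_mul (hP : S_PER) (x : ℕ) (m v : ℤ) (hx : 1 ≤ x) (k : ℕ) :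
    ∑ j ∈ (Ico v (v + k * x)).filter (fun j => ¬ (x : ℤ) ∣ m * j),
      1 / (2 * dn (((m * j : ℤ) : ℝ) / x)) ≤ k * (x * (1 + Real.log x)) := by
  induction k with
  | zero => simp
  | succ k ih =>
    have h1 : Ico v (v + ((k + 1 : ℕ) : ℤ) * x) = Ico v (v + k * x) ∪
        Ico (v + k * x) (v + k * x + x) := by
      rw [Finset.Ico_union_Ico_eq_Ico (by nlinarith [Int.natCast_nonneg k, Int.natCast_nonneg x])
        (by linarith [Int.natCast_nonneg x])]
      congr 1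
      push_cast
      ring
    rw [h1, filter_union]
    have h2 := hP x m (v + k * x) hx
    have h3 : Disjoint ((Ico v (v + k * x)).filter (fun j => ¬ (x : ℤ) ∣ m * j))
        ((Ico (v + k * x) (v + k * x + x)).filter (fun j => ¬ (x : ℤ) ∣ m * j)) :=
      Finset.disjoint_filter_filter (Finset.Ico_disjoint_Ico_consecutive _ _ _)
    rw [Finset.sum_union h3]
    have h4 : ((k + 1 : ℕ) : ℝ) * (x * (1 + Real.log x)) =
        k * (x * (1 + Real.log x)) + x * (1 + Real.log x) := by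
      push_cast
      ring
    rw [h4]
    exact add_le_add ih h2

theorem gcd_le (A h : ℤ) (x : ℕ) (hA : A ≠ 0) (hx : 1 ≤ x) :
    (Int.gcd (2 * A * h) x : ℝ) ≤ 2 * |(A : ℝ)| * (Int.gcd h x : ℝ) := by
  have h1 : Int.gcd (2 * A * h) x ∣ (2 * A).natAbs * Int.gcd h x := by
    have h2 : Int.gcd (2 * A * h) x = Nat.gcd x ((2 * A).natAbs * h.natAbs) := by
      rw [Int.gcd_comm, Int.gcd, Int.natAbs_mul, Int.natAbs_natCast]
    have h3 : Int.gcd h x = Nat.gcd x h.natAbs := by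
      rw [Int.gcd_comm, Int.gcd, Int.natAbs_natCast]
    rw [h2, h3]
    exact (Nat.gcd_mul_right_dvd_mul_gcd _ _ _).trans
      (Nat.mul_dvd_mul (Nat.gcd_dvd_right _ _) dvd_rfl)
  have hG : 0 < Int.gcd h x := by
    rw [Int.gcd_pos_iff]
    right
    omega
  have h4 : 0 < (2 * A).natAbs * Int.gcd h x := by
    apply Nat.mul_pos _ hG
    omega
  have h5 := Nat.le_of_dvd h4 h1
  have h6 : ((2 * A).natAbs : ℝ) = 2 * |(A : ℝ)| := by
    rw [Nat.cast_natAbs]
    push_cast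
    rw [abs_mul]
    norm_num
  calc (Int.gcd (2 * A * h) x : ℝ) ≤ (((2 * A).natAbs * Int.gcd h x : ℕ) : ℝ) := by
        exact_mod_cast h5
    _ = _ := by
      push_cast
      rw [← h6, Nat.cast_natAbs]

theorem t_WEY (hG : S_GEO) (hP : S_PER) : S_WEY := by
  intro L x A B h u n hx hxL hnL hA
  have hx0 : (0 : ℝ) < x := by
    have : 0 < x := hx
    positivity
  obtain ⟨m, hm⟩ : ∃ m : ℤ, m = 2 * A * h := ⟨_, rfl⟩
  obtain ⟨f, hf⟩ : ∃ f : ℤ → ℂ, f = fun γ => ex (((h * (A * γ ^ 2 + B * γ) : ℤ) : ℝ) / x) :=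
    ⟨_, rfl⟩
  have hfn : ∀ γ, ‖f γ‖ = 1 := fun γ => by rw [hf]; exact norm_ex _
  have hph : ∀ γ j : ℤ, f (γ + j) * (starRingEnd ℂ) (f γ) =
      ex (((h * (A * j ^ 2 + B * j) : ℤ) : ℝ) / x) * ex (((m * j : ℤ) : ℝ) / x * (γ : ℝ)) := by
    intro γ j
    rw [hf]
    simp only
    rw [conj_ex, ← ex_add, ← ex_add, hm]
    congr 1
    push_cast
    ring
  -- bounds for the inner sums
  have hb1 : ∀ j : ℤ, ‖∑ γ ∈ (Ioc u (u + n)).filter (fun γ => γ + j ∈ Ioc u (u + n)),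
      f (γ + j) * (starRingEnd ℂ) (f γ)‖ ≤ n := by
    intro j
    refine (norm_sum_le _ _).trans ?_
    have h1 : ∀ γ ∈ (Ioc u (u + n)).filter (fun γ => γ + j ∈ Ioc u (u + n)),
        ‖f (γ + j) * (starRingEnd ℂ) (f γ)‖ ≤ 1 := by
      intro γ _
      rw [norm_mul, RCLike.norm_conj, hfn, hfn, one_mul]
    refine (Finset.sum_le_card_nsmul _ _ _ h1).trans ?_
    rw [nsmul_eq_mul, mul_one]
    have h2 := Finset.card_filter_le (Ioc u (u + n)) (fun γ => γ + j ∈ Ioc u (u + n))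
    rw [Int.card_Ioc] at h2
    have h3 : (u + n - u).toNat = n := by omega
    rw [h3] at h2
    exact_mod_cast h2
  have hb2 : ∀ j : ℤ, j ∈ Ioo (-(n : ℤ)) n → ¬ (x : ℤ) ∣ m * j →
      ‖∑ γ ∈ (Ioc u (u + n)).filter (fun γ => γ + j ∈ Ioc u (u + n)),
        f (γ + j) * (starRingEnd ℂ) (f γ)‖ ≤ 1 / (2 * dn (((m * j : ℤ) : ℝ) / x)) := by
    intro j hj hd
    rw [mem_Ioo] at hj
    obtain ⟨a, k, hak⟩ := filter_Ioc u j n hj.1 hj.2
    rw [hak]
    simp only [hph]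
    rw [← Finset.mul_sum, norm_mul, norm_ex, one_mul]
    exact hG _ a k (dn_pos hx hd)
  have hS := sq_le f u n
  have hsum : ‖∑ γ ∈ Ioc u (u + n), f γ‖ ^ 2 ≤
      ((Ioo (-(n : ℤ)) n).filter (fun j => (x : ℤ) ∣ m * j)).card * (n : ℝ) +
      ∑ j ∈ (Ioo (-(n : ℤ)) n).filter (fun j => ¬ (x : ℤ) ∣ m * j),
        1 / (2 * dn (((m * j : ℤ) : ℝ) / x)) := by
    refine hS.trans ?_
    rw [← Finset.sum_filter_add_sum_filter_not (Ioo (-(n : ℤ)) n) (fun j => (x : ℤ) ∣ m * j)]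
    apply add_le_add
    · refine (Finset.sum_le_card_nsmul _ _ _ (fun j _ => hb1 j)).trans ?_
      rw [nsmul_eq_mul]
    · apply Finset.sum_le_sum
      intro j hj
      rw [mem_filter] at hj
      exact hb2 j hj.1 hj.2
  -- the multiples
  have hd0 : 0 < Int.gcd m x := by
    rw [Int.gcd_pos_iff]
    right
    omega
  obtain ⟨d, hd⟩ : ∃ d : ℕ, d = Int.gcd m x := ⟨_, rfl⟩
  rw [← hd] at hd0
  have hdx : d ∣ x := by
    rw [hd]
    exact_mod_cast Int.gcd_dvd_right m (x : ℤ)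
  obtain ⟨q, hq⟩ := hdx
  have hq0 : 0 < q := by
    rcases Nat.eq_zero_or_pos q with h0 | h0
    · rw [h0, mul_zero] at hq
      omega
    · exact h0
  have hcard : (((Ioo (-(n : ℤ)) n).filter (fun j => (x : ℤ) ∣ m * j)).card : ℝ) ≤
      2 * n / q + 1 := by
    refine le_trans ?_ (card_mult n q hq0)
    apply Nat.cast_le.2
    apply Finset.card_le_card
    intro j hj
    rw [mem_filter] at hj ⊢
    refine ⟨hj.1, ?_⟩
    obtain ⟨m', hm'⟩ : (d : ℤ) ∣ m := by rw [hd]; exact Int.gcd_dvd_left m (x : ℤ)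
    have hdz : (d : ℤ) ≠ 0 := by exact_mod_cast hd0.ne'
    have h1 : (q : ℤ) ∣ m' * j := by
      have h2 := hj.2
      rw [hq, hm'] at h2
      push_cast at h2
      rw [mul_assoc] at h2
      exact Int.dvd_of_mul_dvd_mul_left hdz h2
    have h3 : IsCoprime (q : ℤ) m' := by
      rw [Int.isCoprime_iff_gcd_eq_one]
      have h4 : Int.gcd m x = d * Int.gcd m' q := by
        rw [hm', hq]
        push_cast
        rw [Int.gcd_mul_left, Int.natAbs_natCast]
      rw [← hd] at h4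
      have h5 : d * 1 = d * Int.gcd m' q := by rw [mul_one]; exact h4
      have h6 := Nat.eq_of_mul_eq_mul_left hd0 h5
      rw [Int.gcd_comm]
      exact h6.symm
    exact h3.dvd_of_dvd_mul_left h1
  -- the periods
  obtain ⟨k, hk⟩ : ∃ k : ℕ, k = 2 * n / x + 1 := ⟨_, rfl⟩
  have hk1 : 2 * n ≤ k * x := by
    rw [hk]
    have := Nat.lt_div_mul_add (a := 2 * n) (b := x) (by omega)
    have h2 : (2 * n / x + 1) * x = 2 * n / x * x + x := by ring
    omega
  have hk2 : (k : ℝ) ≤ 2 * n / x + 1 := by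
    rw [hk]
    push_cast
    have := Nat.cast_div_le (α := ℝ) (m := 2 * n) (n := x)
    push_cast at this
    linarith
  have hper : ∑ j ∈ (Ioo (-(n : ℤ)) n).filter (fun j => ¬ (x : ℤ) ∣ m * j),
        1 / (2 * dn (((m * j : ℤ) : ℝ) / x)) ≤ (2 * n / x + 1) * (x * (1 + Real.log x)) := by
    refine le_trans ?_ ((per_mul hP x m (-(n : ℤ)) hx k).trans ?_)
    · apply Finset.sum_le_sum_of_subset_of_nonneg
      · intro j hj
        rw [mem_filter, mem_Ioo] at hj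
        rw [mem_filter, mem_Ico]
        have h1 : (2 * n : ℤ) ≤ k * x := by exact_mod_cast hk1
        exact ⟨⟨hj.1.1.le, by omega⟩, hj.2⟩
      · intro j _ _
        have := dn_nonneg (((m * j : ℤ) : ℝ) / x)
        positivity
    · apply mul_le_mul_of_nonneg_right hk2
      have : 0 ≤ Real.log x := Real.log_nonneg (by exact_mod_cast hx)
      positivity
  -- numbers
  have hL1 : 1 ≤ L := le_trans (by exact_mod_cast hx) hxL
  have hL0 : 0 < L := by linarith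
  have hlogL : 0 ≤ Real.log L := Real.log_nonneg hL1
  have hlog : Real.log x ≤ Real.log L := Real.log_le_log hx0 hxL
  have hlogx : 0 ≤ Real.log x := Real.log_nonneg (by exact_mod_cast hx)
  have hgcd := gcd_le A h x hA hx
  rw [← hm, ← hd] at hgcd
  have hA1 : 1 ≤ |(A : ℝ)| := by
    have : 1 ≤ |A| := Int.one_le_abs hA
    exact_mod_cast this
  have hG1 : (1 : ℝ) ≤ (Int.gcd h x : ℝ) := by
    have : 0 < Int.gcd h x := by
      rw [Int.gcd_pos_iff]
      right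
      omega
    exact_mod_cast this
  obtain ⟨G, hGe⟩ : ∃ G : ℝ, G = (Int.gcd h x : ℝ) := ⟨_, rfl⟩
  obtain ⟨a, ha⟩ : ∃ a : ℝ, a = |(A : ℝ)| := ⟨_, rfl⟩
  rw [← hGe] at hG1 hgcd ⊢
  rw [← ha] at hA1 hgcd ⊢
  have hn0 : (0 : ℝ) ≤ n := Nat.cast_nonneg n
  have hLx : L ≤ L ^ 2 / x := by
    rw [le_div_iff₀ hx0, sq]
    exact mul_le_mul_of_nonneg_left hxL hL0.le
  have hq1 : (1 : ℝ) / q = d / x := by
    have hd0' : (d : ℝ) ≠ 0 := by exact_mod_cast hd0.ne'
    have hq0' : (q : ℝ) ≠ 0 := by exact_mod_cast hq0.ne'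
    rw [hq]
    push_cast
    field_simp
  have haG : 1 ≤ a * G := by nlinarith
  have key : ‖∑ γ ∈ Ioc u (u + n), f γ‖ ^ 2 ≤ 16 * (L ^ 2 / x) * (a * (1 + Real.log L) * G) := by
    have e1 : (((Ioo (-(n : ℤ)) n).filter (fun j => (x : ℤ) ∣ m * j)).card : ℝ) * n ≤
        4 * (a * G) * (L ^ 2 / x) + L ^ 2 / x := by
      have e2 : (((Ioo (-(n : ℤ)) n).filter (fun j => (x : ℤ) ∣ m * j)).card : ℝ) * n ≤
          (2 * n / q + 1) * n := mul_le_mul_of_nonneg_right hcard hn0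
      refine e2.trans ?_
      have e3 : (2 * (n : ℝ) / q + 1) * n = 2 * n ^ 2 * (d / x) + n := by
        rw [← hq1]
        ring
      rw [e3]
      have e4 : 2 * (n : ℝ) ^ 2 * (d / x) ≤ 2 * L ^ 2 * (2 * a * G / x) := by
        apply mul_le_mul
        · have : (n : ℝ) ^ 2 ≤ L ^ 2 := pow_le_pow_left₀ hn0 hnL 2
          linarith
        · exact div_le_div_of_nonneg_right hgcd hx0.le
        · positivity
        · positivity
      have e5 : 2 * L ^ 2 * (2 * a * G / x) = 4 * (a * G) * (L ^ 2 / x) := by ring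
      rw [e5] at e4
      linarith
    have e6 : (2 * (n : ℝ) / x + 1) * (x * (1 + Real.log x)) ≤
        3 * (L ^ 2 / x) * (1 + Real.log L) := by
      have e7 : (2 * (n : ℝ) / x + 1) * (x * (1 + Real.log x)) = (2 * n + x) * (1 + Real.log x) := by
        field_simp
      rw [e7]
      apply mul_le_mul
      · linarith
      · linarith
      · linarith
      · positivity
    have hQ : 0 ≤ L ^ 2 / x := by positivity
    have e8 : ‖∑ γ ∈ Ioc u (u + n), f γ‖ ^ 2 ≤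
        (L ^ 2 / x) * (4 * (a * G) + 1 + 3 * (1 + Real.log L)) := by
      have e9 := hsum.trans (add_le_add e1 (hper.trans e6))
      refine e9.trans (le_of_eq ?_)
      ring
    refine e8.trans ?_
    have e10 : 4 * (a * G) + 1 + 3 * (1 + Real.log L) ≤ 16 * (a * G * (1 + Real.log L)) := by
      nlinarith
    calc (L ^ 2 / x) * (4 * (a * G) + 1 + 3 * (1 + Real.log L))
        ≤ (L ^ 2 / x) * (16 * (a * G * (1 + Real.log L))) := mul_le_mul_of_nonneg_left e10 hQ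
      _ = _ := by ring
  have hfin : ‖∑ γ ∈ Ioc u (u + n), f γ‖ ≤ 4 * (L / √(x : ℝ)) * √(a * (1 + Real.log L) * G) := by
    apply le_of_sq_le_sq _ (by positivity)
    refine key.trans (le_of_eq ?_)
    have hpos : 0 ≤ a * (1 + Real.log L) * G := by positivity
    rw [mul_pow, mul_pow, div_pow, Real.sq_sqrt hx0.le, Real.sq_sqrt hpos]
    norm_num
  rw [hf] at hfin
  exact hfin

end Pool.Agent.L0h71.LR
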