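import Pool.Agent.L0h45.LR.Stm
import Pool.Agent.N456.PQ.Fam

/-! # LR/FAML: many curves of the family on a vertical line

Uses lemmas of `N456/PQ/Fam.lean` (helper456). -/

set_option autoImplicit false
set_option linter.all false

open Finset Filter
open scoped Classical

namespace Pool.Agent.L0h71.LR

open Pool.Agent.L0h45.LR
open Pool.Agent.N922.PQ
open Pool.Agent.N456.PQ (card_cls card_cls_ge cop_of not_dvd_small loc_b loc_a root_of fib pi_small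
  exists_p crt)

/-- the numbers `b` of the box in a residue class -/
noncomputable def Bb (X : ℕ) (m b0 : ℤ) : Finset ℤ :=
  (Finset.Ioc (-(X : ℤ) ^ 3 - 1) ((X : ℤ) ^ 3)).filter fun b => m ∣ b - b0

/-- those with the factor `p ^ 2` of the discriminant -/
noncomputable def Gb (X : ℕ) (m b0 a : ℤ) (p : ℕ) : Finset ℤ :=
  (Bb X m b0).filter fun b => (p : ℤ) ^ 2 ∣ dsc a b

theorem box_le (X : ℕ) : -(X : ℤ) ^ 3 - 1 ≤ (X : ℤ) ^ 3 := by
  have : (0 : ℤ) ≤ (X : ℤ) ^ 3 := by positivity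
  linarith

theorem box_len (X : ℕ) : (((X : ℤ) ^ 3 : ℤ) : ℝ) - ((-(X : ℤ) ^ 3 - 1 : ℤ) : ℝ) =
    2 * (X : ℝ) ^ 3 + 1 := by
  push_cast
  ring

theorem card_G1 {p : ℕ} (hp : p.Prime) (hp5 : 5 ≤ p) {m : ℤ} (hm : 0 < m)
    (hc : IsCoprime m (p : ℤ)) (X : ℕ) (a b0 : ℤ) (ha : ¬ (p : ℤ) ∣ a) :
    ((Gb X m b0 a p).card : ℝ) ≤ 2 * ((2 * (X : ℝ) ^ 3 + 1) / (m * (p : ℝ) ^ 2) + 1) := by
  have h := fib hp hp5 hm hc (a := a) (b0 := b0) (box_le X) ha (s := Gb X m b0 a p) (by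
      intro x hx
      unfold Gb Bb at hx
      simp only [Finset.mem_filter] at hx
      exact hx.1.1) (by
      intro x hx
      unfold Gb Bb at hx
      simp only [Finset.mem_filter] at hx
      exact ⟨hx.1.2, hx.2⟩)
  rw [box_len] at h
  exact h

theorem card_G2 {p : ℕ} (hp : p.Prime) (hp5 : 5 ≤ p) {m : ℤ} (hm : 0 < m)
    (hc : IsCoprime m (p : ℤ)) (X : ℕ) (a b0 : ℤ) (ha : (p : ℤ) ∣ a) :
    ((Gb X m b0 a p).card : ℝ) ≤ (2 * (X : ℝ) ^ 3 + 1) / (m * (p : ℝ)) + 1 := by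
  have hp0 : (0 : ℤ) < p := by exact_mod_cast hp.pos
  have hq : 0 < m * (p : ℤ) := by positivity
  have h5 := card_cls (q := m * (p : ℤ)) (box_le X) hq (s := Gb X m b0 a p) (by
      intro x hx
      unfold Gb Bb at hx
      simp only [Finset.mem_filter] at hx
      exact hx.1.1) (by
      intro x hx y hy
      unfold Gb Bb at hx hy
      simp only [Finset.mem_filter] at hx hy
      apply hc.mul_dvd
      · have := dvd_sub hx.1.2 hy.1.2
        have e : x - b0 - (y - b0) = x - y := by ring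
        rwa [e] at this
      · exact dvd_sub (loc_a hp hp5 ha hx.2) (loc_a hp hp5 ha hy.2))
  rw [box_len] at h5
  have hR2 : ((m * (p : ℤ) : ℤ) : ℝ) = (m : ℝ) * (p : ℝ) := by push_cast; ring
  rw [hR2] at h5
  exact h5

/-- the numbers with a large square factor -/
noncomputable def Pl (a : ℤ) (Y : ℕ) : Finset ℤ :=
  (Icc (-(Y : ℤ)) Y).filter (fun b => ∃ n : ℤ, (Y : ℤ) < n ∧ n ^ 2 ∣ 4 * a ^ 3 + 27 * b ^ 2)

theorem bad_le {m : ℤ} (hm : 0 < m) {X : ℕ} (hX : 2 ≤ X) (a b0 : ℤ) (ha0 : 0 < a) (F : Finset ℕ)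
    (hF : ∑ p ∈ F, (1 / (p : ℝ)) ≤ 1 / 4)
    (hFa : ∀ p : ℕ, p.Prime → IsCoprime m (p : ℤ) → (p : ℤ) ∣ a → p ∈ F)
    (hdv : ∀ b : ℤ, m ∣ b - b0 → ∀ p : ℕ, p.Prime → (p : ℤ) ^ 2 ∣ dsc a b →
      5 ≤ p ∧ IsCoprime m (p : ℤ)) :
    (((Bb X m b0).filter fun b => ¬ Squarefree (dsc a b)).card : ℝ) ≤
      3 / 4 * ((2 * (X : ℝ) ^ 3 + 1) / m) + F.card + 2 * (Nat.primeCounting (6 * X ^ 3) : ℝ) +
        (Pl a (X ^ 3)).card := by
  obtain ⟨P, hP⟩ : ∃ P : Finset ℕ, P = (Finset.range (X ^ 3 + 1)).filter fun p : ℕ =>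
    p.Prime ∧ 5 ≤ p ∧ IsCoprime m (p : ℤ) := ⟨_, rfl⟩
  have hPm : ∀ p : ℕ, p ∈ P ↔ p < X ^ 3 + 1 ∧ p.Prime ∧ 5 ≤ p ∧ IsCoprime m (p : ℤ) := by
    intro p
    rw [hP, Finset.mem_filter, Finset.mem_range]
  have hmR : (0 : ℝ) < m := by exact_mod_cast hm
  have hsub : ((Bb X m b0).filter fun b => ¬ Squarefree (dsc a b)) ⊆
      (P.biUnion fun p => Gb X m b0 a p) ∪ Pl a (X ^ 3) := by
    intro b hb
    rw [Finset.mem_filter] at hb
    obtain ⟨hb1, hb2⟩ := hb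
    obtain ⟨p, hp, hpd⟩ := exists_p ha0 hb2
    have hb3 := hb1
    unfold Bb at hb1
    rw [Finset.mem_filter, Finset.mem_Ioc] at hb1
    have h7 := hdv b hb1.2 p hp hpd
    rw [Finset.mem_union]
    by_cases hpX : p ≤ X ^ 3
    · left
      rw [Finset.mem_biUnion]
      refine ⟨p, (hPm p).2 ⟨by omega, hp, h7⟩, ?_⟩
      unfold Gb
      rw [Finset.mem_filter]
      exact ⟨hb3, hpd⟩
    · right
      unfold Pl
      rw [Finset.mem_filter, Finset.mem_Icc]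
      push Not at hpX
      have h8 : ((X ^ 3 : ℕ) : ℤ) = (X : ℤ) ^ 3 := by push_cast; ring
      refine ⟨⟨?_, ?_⟩, (p : ℤ), ?_, hpd⟩
      · rw [h8]; linarith [hb1.1.1]
      · rw [h8]; exact hb1.1.2
      · exact_mod_cast hpX
  have h1 : (((Bb X m b0).filter fun b => ¬ Squarefree (dsc a b)).card : ℝ) ≤
      ∑ p ∈ P, ((Gb X m b0 a p).card : ℝ) + (Pl a (X ^ 3)).card := by
    have h2 := (Finset.card_le_card hsub).trans (Finset.card_union_le _ _)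
    have h3 : (P.biUnion fun p => Gb X m b0 a p).card ≤ ∑ p ∈ P, (Gb X m b0 a p).card :=
      Finset.card_biUnion_le
    have h4 := h2.trans (Nat.add_le_add_right h3 _)
    exact_mod_cast h4
  refine h1.trans ?_
  rw [← Finset.sum_filter_add_sum_filter_not P (fun p : ℕ => (p : ℤ) ∣ a)]
  obtain ⟨D, hD⟩ : ∃ D : ℝ, D = 2 * (X : ℝ) ^ 3 + 1 := ⟨_, rfl⟩
  have hD0 : 0 < D := by rw [hD]; positivity
  rw [← hD]
  have h2 : ∑ p ∈ P.filter (fun p : ℕ => (p : ℤ) ∣ a), ((Gb X m b0 a p).card : ℝ) ≤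
      1 / 4 * (D / m) + F.card := by
    have hsub2 : P.filter (fun p : ℕ => (p : ℤ) ∣ a) ⊆ F := by
      intro p hp
      obtain ⟨h4, h5⟩ := Finset.mem_filter.1 hp
      obtain ⟨-, h6, h7, h8⟩ := (hPm p).1 h4
      exact hFa p h6 h8 h5
    have h3 : ∑ p ∈ P.filter (fun p : ℕ => (p : ℤ) ∣ a), ((Gb X m b0 a p).card : ℝ) ≤
        ∑ p ∈ F, (D / m * (1 / (p : ℝ)) + 1) := by
      refine (Finset.sum_le_sum (g := fun p : ℕ => (D / m * (1 / (p : ℝ)) + 1)) ?_).trans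
        (Finset.sum_le_sum_of_subset_of_nonneg hsub2 (fun p _ _ => by positivity))
      intro p hp
      obtain ⟨h4, h5⟩ := Finset.mem_filter.1 hp
      obtain ⟨-, h6, h7, h8⟩ := (hPm p).1 h4
      have h9 := card_G2 h6 h7 hm h8 X a b0 h5
      rw [← hD] at h9
      refine h9.trans (le_of_eq ?_)
      have hp0 : (p : ℝ) ≠ 0 := by exact_mod_cast h6.ne_zero
      field_simp
    refine h3.trans ?_
    rw [Finset.sum_add_distrib, ← Finset.mul_sum, Finset.sum_const, nsmul_eq_mul, mul_one]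
    have h4 := mul_le_mul_of_nonneg_left hF (show 0 ≤ D / m by positivity)
    linarith
  have h3 : ∑ p ∈ P.filter (fun p : ℕ => ¬ (p : ℤ) ∣ a), ((Gb X m b0 a p).card : ℝ) ≤
      1 / 2 * (D / m) + 2 * (Nat.primeCounting (6 * X ^ 3) : ℝ) := by
    have h4 : ∑ p ∈ P.filter (fun p : ℕ => ¬ (p : ℤ) ∣ a), ((Gb X m b0 a p).card : ℝ) ≤
        ∑ p ∈ P.filter (fun p : ℕ => ¬ (p : ℤ) ∣ a), (2 * (D / m) * ((p : ℝ) ^ 2)⁻¹ + 2) := by
      apply Finset.sum_le_sum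
      intro p hp
      obtain ⟨h4, h5⟩ := Finset.mem_filter.1 hp
      obtain ⟨-, h6, h7, h8⟩ := (hPm p).1 h4
      have h9 := card_G1 h6 h7 hm h8 X a b0 h5
      rw [← hD] at h9
      refine h9.trans (le_of_eq ?_)
      have hp0 : (p : ℝ) ≠ 0 := by exact_mod_cast h6.ne_zero
      field_simp
    refine h4.trans ?_
    rw [Finset.sum_add_distrib, ← Finset.mul_sum, Finset.sum_const, nsmul_eq_mul]
    have h5 : ∑ p ∈ P.filter (fun p : ℕ => ¬ (p : ℤ) ∣ a), ((p : ℝ) ^ 2)⁻¹ ≤ 1 / 4 := by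
      have h6 : ∑ p ∈ P.filter (fun p : ℕ => ¬ (p : ℤ) ∣ a), ((p : ℝ) ^ 2)⁻¹ ≤
          ∑ p ∈ Finset.Ioc 4 (X ^ 3), ((p : ℝ) ^ 2)⁻¹ := by
        apply Finset.sum_le_sum_of_subset_of_nonneg
        · intro p hp
          obtain ⟨h4, h5⟩ := Finset.mem_filter.1 hp
          obtain ⟨h6, h7, h8, h9⟩ := (hPm p).1 h4
          rw [Finset.mem_Ioc]
          exact ⟨by omega, by omega⟩
        · intro p _ _
          positivity
      have hY : 4 ≤ X ^ 3 := by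
        have : 2 ^ 3 ≤ X ^ 3 := Nat.pow_le_pow_left hX 3
        omega
      refine h6.trans ((sum_Ioc_inv_sq_le_sub (α := ℝ) (k := 4) (by norm_num) hY).trans ?_)
      have : (0 : ℝ) ≤ ((X ^ 3 : ℕ) : ℝ)⁻¹ := by positivity
      push_cast at this ⊢
      linarith
    have h6 : ((P.filter (fun p : ℕ => ¬ (p : ℤ) ∣ a)).card : ℝ) ≤
        (Nat.primeCounting (6 * X ^ 3) : ℝ) := by
      have h7 : (P.filter (fun p : ℕ => ¬ (p : ℤ) ∣ a)) ⊆
          (Finset.range (6 * X ^ 3 + 1)).filter Nat.Prime := by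
        intro p hp
        obtain ⟨h4, h5⟩ := Finset.mem_filter.1 hp
        obtain ⟨h6, h7, -⟩ := (hPm p).1 h4
        rw [Finset.mem_filter, Finset.mem_range]
        exact ⟨by omega, h7⟩
      have h8 := Finset.card_le_card h7
      have h9 : ((Finset.range (6 * X ^ 3 + 1)).filter Nat.Prime).card =
          Nat.primeCounting (6 * X ^ 3) := by
        rw [Nat.primeCounting, Nat.primeCounting', Nat.count_eq_card_filter_range]
      rw [h9] at h8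
      exact_mod_cast h8
    have h7 := mul_le_mul_of_nonneg_left h5 (show 0 ≤ 2 * (D / m) by positivity)
    linarith
  linarith

/-- the number of good `b` -/
theorem good_ge (hPell : S_PELL) {m : ℤ} (hm : 0 < m) (a b0 : ℤ) (ha0 : 0 < a) (F : Finset ℕ)
    (hF : ∑ p ∈ F, (1 / (p : ℝ)) ≤ 1 / 4)
    (hFa : ∀ p : ℕ, p.Prime → IsCoprime m (p : ℤ) → (p : ℤ) ∣ a → p ∈ F)
    (hdv : ∀ b : ℤ, m ∣ b - b0 → ∀ p : ℕ, p.Prime → (p : ℤ) ^ 2 ∣ dsc a b →
      5 ≤ p ∧ IsCoprime m (p : ℤ)) :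
    ∀ᶠ X : ℕ in atTop, (X : ℝ) ^ 3 ≤ 4 * m *
      (((Bb X m b0).filter fun b => Squarefree (dsc a b)).card : ℝ) := by
  have hmR : (0 : ℝ) < m := by exact_mod_cast hm
  obtain ⟨Y₀, hY₀⟩ := hPell a (1 / (16 * m)) ha0 (by positivity)
  have hev1 := pi_small (ε := 1 / (32 * (m : ℝ))) (by positivity)
  have h3t : Tendsto (fun X : ℕ => (X : ℝ) ^ 3) atTop atTop :=
    (tendsto_pow_atTop (by norm_num)).comp tendsto_natCast_atTop_atTop
  have hev2 : ∀ᶠ X : ℕ in atTop, 8 * (m : ℝ) * (1 + F.card) ≤ (X : ℝ) ^ 3 :=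
    h3t.eventually_ge_atTop _
  have hev3 : ∀ᶠ X : ℕ in atTop, Y₀ ≤ X ^ 3 := by
    filter_upwards [h3t.eventually_ge_atTop (Y₀ : ℝ)] with X hX
    exact_mod_cast hX
  filter_upwards [hev1, hev2, hev3, eventually_ge_atTop 2] with X h1 h2 h3 hX
  have h4 := bad_le hm hX a b0 ha0 F hF hFa hdv
  have h5 := Finset.card_filter_add_card_filter_not (s := Bb X m b0)
    (fun b : ℤ => Squarefree (dsc a b))
  have h6 : ((Bb X m b0).card : ℝ) =
      (((Bb X m b0).filter fun b => Squarefree (dsc a b)).card : ℝ) +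
      (((Bb X m b0).filter fun b => ¬ Squarefree (dsc a b)).card : ℝ) := by
    exact_mod_cast h5.symm
  have h7 := card_cls_ge (u := -(X : ℤ) ^ 3 - 1) (v := (X : ℤ) ^ 3) hm b0
  rw [box_len] at h7
  have h8 : (2 * (X : ℝ) ^ 3 + 1) / m - 1 ≤ ((Bb X m b0).card : ℝ) := h7
  have h9 := hY₀ (X ^ 3) h3
  have h10 : ((Pl a (X ^ 3)).card : ℝ) ≤ 1 / (16 * m) * ((X ^ 3 : ℕ) : ℝ) := h9
  push_cast at h10
  obtain ⟨α, hα⟩ : ∃ α : ℝ, α = (m : ℝ)⁻¹ := ⟨_, rfl⟩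
  have hmα : (m : ℝ) * α = 1 := by rw [hα]; field_simp
  have e1 : (2 * (X : ℝ) ^ 3 + 1) / m = (2 * (X : ℝ) ^ 3 + 1) * α := by rw [hα, div_eq_mul_inv]
  have e2 : 1 / (16 * (m : ℝ)) * (X : ℝ) ^ 3 = (X : ℝ) ^ 3 * α / 16 := by
    rw [hα]
    field_simp
  have e3 : 1 / (32 * (m : ℝ)) * (X : ℝ) ^ 3 = (X : ℝ) ^ 3 * α / 32 := by
    rw [hα]
    field_simp
  have hα0 : 0 < α := by rw [hα]; positivity
  have e4 : (1 + F.card : ℝ) ≤ (X : ℝ) ^ 3 * α / 8 := by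
    have := mul_le_mul_of_nonneg_right h2 hα0.le
    have e5 : 8 * (m : ℝ) * (1 + F.card) * α = 8 * (1 + F.card) * (m * α) := by ring
    rw [e5, hmα] at this
    linarith
  rw [e1] at h4 h8
  rw [e2] at h10
  rw [e3] at h1
  have e6 : (X : ℝ) ^ 3 * α / 4 ≤
      (((Bb X m b0).filter fun b => Squarefree (dsc a b)).card : ℝ) := by
    nlinarith [h4, h6, h8, h10, h1, e4, hα0]
  have e7 := mul_le_mul_of_nonneg_left e6 (show 0 ≤ 4 * (m : ℝ) by positivity)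
  have e8 : 4 * (m : ℝ) * ((X : ℝ) ^ 3 * α / 4) = (X : ℝ) ^ 3 * (m * α) := by ring
  rw [e8, hmα, mul_one] at e7
  exact e7

theorem t_FAML (hPell : S_PELL) : S_FAML := by
  intro T A B hT a ha0 haT W hW hsum S s hS haS hST hSW
  -- the primes dividing `W` and `a`
  obtain ⟨Rn, hRn⟩ : ∃ Rn : Finset ℕ, Rn = W.primeFactors.filter
    (fun p : ℕ => (p : ℤ) ∣ a ∧ (p : ℤ) ∉ T) := ⟨_, rfl⟩
  obtain ⟨R, hR⟩ : ∃ R : Finset ℤ, R = Rn.image (fun p : ℕ => (p : ℤ)) := ⟨_, rfl⟩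
  have hRm : ∀ Q ∈ R, ∃ p : ℕ, p.Prime ∧ p ∣ W ∧ (p : ℤ) ∣ a ∧ (p : ℤ) ∉ T ∧ Q = p := by
    intro Q hQ
    rw [hR, Finset.mem_image] at hQ
    obtain ⟨p, hp, rfl⟩ := hQ
    rw [hRn, Finset.mem_filter, Nat.mem_primeFactors] at hp
    exact ⟨p, hp.1.1, hp.1.2.1, hp.2.1, hp.2.2, rfl⟩
  obtain ⟨U, hU⟩ : ∃ U : Finset ℤ, U = S ∪ T ∪ R := ⟨_, rfl⟩
  have hUp : ∀ Q ∈ U, IsPr Q := by
    intro Q hQ
    rw [hU, Finset.mem_union, Finset.mem_union] at hQ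
    rcases hQ with (h | h) | h
    · exact (hS Q h).1
    · exact (hT.2.2 Q h).1
    · obtain ⟨p, hp, -, -, -, rfl⟩ := hRm Q h
      exact ⟨by exact_mod_cast hp.pos, Nat.prime_iff_prime_int.1 hp⟩
  have h2T : (2 : ℤ) ∈ T := hT.1
  have h3T : (3 : ℤ) ∈ T := hT.2.1
  have h2U : (2 : ℤ) ∈ U := by
    rw [hU]
    exact Finset.mem_union_left _ (Finset.mem_union_right _ h2T)
  obtain ⟨b1, hb1⟩ := crt (W := U.erase 2) (fun Q hQ => hUp Q (Finset.mem_of_mem_erase hQ))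
    (fun Q => if Q ∈ S then 0 else if Q ∈ T then B Q else 1)
  obtain ⟨M, hM⟩ : ∃ M : ℤ, M = ∏ Q ∈ U.erase 2, Q := ⟨_, rfl⟩
  have hM0 : 0 < M := by
    rw [hM]
    exact Finset.prod_pos fun Q hQ => (hUp Q (Finset.mem_of_mem_erase hQ)).1
  have hMd : ∀ Q ∈ U.erase 2, Q ∣ M := by
    intro Q hQ
    rw [hM]
    exact Finset.dvd_prod_of_mem (fun Q : ℤ => Q) hQ
  have hcop : IsCoprime (4 : ℤ) M := by
    have h2 : IsCoprime (2 : ℤ) M := by
      rw [hM]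
      apply IsCoprime.prod_right
      intro Q hQ
      apply (Int.prime_two).coprime_iff_not_dvd.2
      intro h
      have hQp := hUp Q (Finset.mem_of_mem_erase hQ)
      have h3 := (Int.prime_two.dvd_prime_iff_associated hQp.2).1 h
      have h4 : (2 : ℤ) = Q := Int.eq_of_associated_of_nonneg h3 (by norm_num) hQp.1.le
      exact (Finset.ne_of_mem_erase hQ) h4.symm
    have h4 : (4 : ℤ) = 2 ^ 2 := by norm_num
    rw [h4]
    exact h2.pow_left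
  obtain ⟨x, y, hxy⟩ := hcop
  obtain ⟨b0, hb0⟩ : ∃ b0 : ℤ, b0 = a * (y * M) + b1 * (x * 4) := ⟨_, rfl⟩
  have hb04 : (4 : ℤ) ∣ b0 - a := by
    refine ⟨x * (b1 - a), ?_⟩
    rw [hb0]
    have e : y * M = 1 - x * 4 := by linarith
    rw [e]
    ring
  have hb0M : M ∣ b0 - b1 := by
    refine ⟨y * (a - b1), ?_⟩
    rw [hb0]
    have e : x * 4 = 1 - y * M := by linarith
    rw [e]
    ring
  obtain ⟨m, hmdef⟩ : ∃ m : ℤ, m = 4 * M := ⟨_, rfl⟩
  have hm : 0 < m := by rw [hmdef]; positivity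
  have hSU : ∀ Q ∈ S, Q ∈ U.erase 2 := by
    intro Q hQ
    rw [Finset.mem_erase]
    refine ⟨?_, ?_⟩
    · intro h
      have h8 := (hS Q hQ).2.1
      rw [h] at h8
      norm_num at h8
    · rw [hU]
      exact Finset.mem_union_left _ (Finset.mem_union_left _ hQ)
  have hRS : ∀ Q ∈ R, Q ∉ S ∧ Q ∉ T := by
    intro Q hQ
    obtain ⟨p, hp, hpW, hpa, hpT, rfl⟩ := hRm Q hQ
    exact ⟨fun h => hSW p h (by exact_mod_cast hpW), hpT⟩
  have hRU : ∀ Q ∈ R, Q ∈ U.erase 2 := by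
    intro Q hQ
    rw [Finset.mem_erase]
    refine ⟨?_, ?_⟩
    · intro h
      exact (hRS Q hQ).2 (h ▸ h2T)
    · rw [hU]
      exact Finset.mem_union_right _ hQ
  have hTU : ∀ Q ∈ T, Q ≠ 2 → Q ∈ U.erase 2 := by
    intro Q hQ h2
    rw [Finset.mem_erase, hU]
    exact ⟨h2, Finset.mem_union_left _ (Finset.mem_union_right _ hQ)⟩
  -- `A 2` and `B 2` are odd
  have hodd : ¬ (2 : ℤ) ∣ A 2 ∧ ¬ (2 : ℤ) ∣ B 2 := by
    have h0 := (hT.2.2 2 h2T).2 0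
    have h1 := (hT.2.2 2 h2T).2 1
    have e0 : (0 : ℤ) ^ 3 + A 2 * 0 + B 2 = B 2 := by ring
    have e1 : (1 : ℤ) ^ 3 + A 2 * 1 + B 2 = 1 + A 2 + B 2 := by ring
    rw [e0] at h0
    rw [e1] at h1
    omega
  -- the residues of `b`
  have hres : ∀ b : ℤ, m ∣ b - b0 → (4 : ℤ) ∣ a - b ∧ (∀ Q ∈ S, Q ∣ b) ∧
      (∀ P ∈ T, P ∣ b - B P) ∧ ∀ Q ∈ R, Q ∣ b - 1 := by
    intro b hb
    have hb4 : (4 : ℤ) ∣ a - b := by
      have h1 : (4 : ℤ) ∣ b - b0 := (Dvd.intro M hmdef.symm).trans hb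
      have h2 := dvd_add h1 hb04
      have e : b - b0 + (b0 - a) = -(a - b) := by ring
      rw [e, dvd_neg] at h2
      exact h2
    have hbM : ∀ Q ∈ U.erase 2, Q ∣ b - (if Q ∈ S then 0 else if Q ∈ T then B Q else 1) := by
      intro Q hQ
      have h1 : M ∣ b - b0 := (Dvd.intro_left 4 hmdef.symm).trans hb
      have h2 := dvd_add ((hMd Q hQ).trans (dvd_add h1 hb0M)) (hb1 Q hQ)
      have e : b - b0 + (b0 - b1) + (b1 - (if Q ∈ S then 0 else if Q ∈ T then B Q else 1)) =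
        b - (if Q ∈ S then 0 else if Q ∈ T then B Q else 1) := by ring
      rw [e] at h2
      exact h2
    refine ⟨hb4, fun Q hQ => ?_, fun Q hQ => ?_, fun Q hQ => ?_⟩
    · have := hbM Q (hSU Q hQ)
      rwa [if_pos hQ, sub_zero] at this
    · by_cases h2 : Q = 2
      · subst h2
        have h3 := haT 2 hQ
        omega
      · have := hbM Q (hTU Q hQ h2)
        rwa [if_neg (Finset.disjoint_right.1 hST hQ), if_pos hQ] at this
    · have := hbM Q (hRU Q hQ)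
      rwa [if_neg (hRS Q hQ).1, if_neg (hRS Q hQ).2] at this
  -- the primes in `U` do not divide the discriminant
  have hnd : ∀ b : ℤ, m ∣ b - b0 → ∀ Q ∈ U, ¬ Q ∣ dsc a b := by
    intro b hb Q hQ hd
    obtain ⟨-, r2, r4, r5⟩ := hres b hb
    obtain ⟨hQ0, hQp⟩ := hUp Q hQ
    rw [hU, Finset.mem_union, Finset.mem_union] at hQ
    rcases hQ with (h | h) | h
    · obtain ⟨-, h8, hz⟩ := hS Q h
      have h1 : Q ∣ 4 * a ^ 3 := by
        have h2 : Q ∣ 27 * b ^ 2 := (dvd_pow (r2 Q h) (by norm_num)).mul_left 27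
        exact (Int.dvd_add_left h2).1 hd
      have h2 : Q ∣ a := by
        rcases hQp.dvd_or_dvd h1 with h3 | h3
        · exfalso
          have := Int.le_of_dvd (by norm_num) h3
          have : Q ≠ 1 := fun h1 => hQp.not_unit (h1 ▸ isUnit_one)
          omega
        · exact hQp.dvd_of_dvd_pow h3
      apply hz 0
      have h3 := dvd_sub h2 (haS Q h)
      have e : a - (a - s Q) = 0 ^ 2 + s Q := by ring
      rwa [e] at h3
    · obtain ⟨-, hz⟩ := hT.2.2 Q h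
      have h1 : Q ∣ 4 * (A Q) ^ 3 + 27 * (B Q) ^ 2 := by
        have e1 : Q ∣ a ^ 3 - (A Q) ^ 3 := (haT Q h).trans (sub_dvd_pow_sub_pow _ _ 3)
        have e2 : Q ∣ b ^ 2 - (B Q) ^ 2 := (r4 Q h).trans (sub_dvd_pow_sub_pow _ _ 2)
        have e3 := dvd_sub hd (dvd_add (e1.mul_left 4) (e2.mul_left 27))
        have e : dsc a b - (4 * (a ^ 3 - (A Q) ^ 3) + 27 * (b ^ 2 - (B Q) ^ 2)) =
            4 * (A Q) ^ 3 + 27 * (B Q) ^ 2 := by unfold dsc; ring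
        rwa [e] at e3
      obtain ⟨z, hz'⟩ := root_of (hT.2.2 Q h).1 h1
      exact hz z hz'
    · obtain ⟨p, hp, hpW, hpa, hpT, rfl⟩ := hRm Q h
      have h1 : (p : ℤ) ∣ 27 := by
        have e2 : (p : ℤ) ∣ b ^ 2 - 1 ^ 2 := (r5 _ h).trans (sub_dvd_pow_sub_pow _ _ 2)
        have e3 : (p : ℤ) ∣ 4 * a ^ 3 := (dvd_pow hpa (by norm_num)).mul_left 4
        have e4 := dvd_sub hd (dvd_add e3 (e2.mul_left 27))
        have e : dsc a b - (4 * a ^ 3 + 27 * (b ^ 2 - 1 ^ 2)) = 27 := by unfold dsc; ring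
        rwa [e] at e4
      have h4 : (p : ℤ) ∣ 3 ^ 3 := by norm_num; exact h1
      have h5 := hQp.dvd_of_dvd_pow h4
      have h6 := (Int.prime_three.dvd_prime_iff_associated hQp)
      have h7 := (hQp.dvd_prime_iff_associated Int.prime_three).1 h5
      have h8 : (p : ℤ) = 3 := Int.eq_of_associated_of_nonneg h7 hQ0.le (by norm_num)
      exact hpT (h8 ▸ h3T)
  have hpm : ∀ p : ℕ, p.Prime → (∀ Q ∈ U, (p : ℤ) ≠ Q) → IsCoprime m (p : ℤ) := by
    intro p hp h1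
    have hpp := Nat.prime_iff_prime_int.1 hp
    rw [isCoprime_comm]
    apply hpp.coprime_iff_not_dvd.2
    intro h2
    rw [hmdef] at h2
    rcases hpp.dvd_or_dvd h2 with h2 | h2
    · have h3 : (p : ℤ) ∣ 2 ^ 2 := by norm_num; exact h2
      have h4 := hpp.dvd_of_dvd_pow h3
      have h5 := (hpp.dvd_prime_iff_associated Int.prime_two).1 h4
      have h6 : (p : ℤ) = 2 := Int.eq_of_associated_of_nonneg h5 (by positivity) (by norm_num)
      exact h1 2 h2U h6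
    · rw [hM, hpp.dvd_finsetProd_iff] at h2
      obtain ⟨Q, hQ, hpQ⟩ := h2
      have hQU := Finset.mem_of_mem_erase hQ
      apply h1 Q hQU
      have h3 := (hpp.dvd_prime_iff_associated (hUp Q hQU).2).1 hpQ
      exact Int.eq_of_associated_of_nonneg h3 (by positivity) (hUp Q hQU).1.le
  have hdv : ∀ b : ℤ, m ∣ b - b0 → ∀ p : ℕ, p.Prime → (p : ℤ) ^ 2 ∣ dsc a b →
      5 ≤ p ∧ IsCoprime m (p : ℤ) := by
    intro b hb p hp hpd
    have hpd1 : (p : ℤ) ∣ dsc a b := (dvd_pow_self _ two_ne_zero).trans hpd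
    have h1 : ∀ Q ∈ U, (p : ℤ) ≠ Q := fun Q hQ h => hnd b hb Q hQ (h ▸ hpd1)
    refine ⟨?_, hpm p hp h1⟩
    have h2 := h1 2 h2U
    have h3 := h1 3 (by
      rw [hU]
      exact Finset.mem_union_left _ (Finset.mem_union_right _ h3T))
    have h4 := hp.two_le
    by_contra hlt
    push Not at hlt
    have h5 : p = 4 := by omega
    rw [h5] at hp
    exact absurd hp (by norm_num)
  have hFa : ∀ p : ℕ, p.Prime → IsCoprime m (p : ℤ) → (p : ℤ) ∣ a →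
      p ∈ a.natAbs.primeFactors.filter (fun p : ℕ => ¬ p ∣ W ∧ (p : ℤ) ∉ T) := by
    intro p hp hc hpa
    have hpp := Nat.prime_iff_prime_int.1 hp
    have hnm : ¬ (p : ℤ) ∣ m := by
      rw [isCoprime_comm] at hc
      exact hpp.coprime_iff_not_dvd.1 hc
    have hpT : (p : ℤ) ∉ T := by
      intro h
      apply hnm
      rw [hmdef]
      by_cases h2 : (p : ℤ) = 2
      · rw [h2]
        exact Dvd.dvd.mul_right (by norm_num) M
      · exact (hMd _ (hTU _ h h2)).mul_left 4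
    rw [Finset.mem_filter, Nat.mem_primeFactors]
    refine ⟨⟨hp, Int.natCast_dvd.1 hpa, by omega⟩, ?_, hpT⟩
    intro hpW
    apply hnm
    rw [hmdef]
    apply (hMd _ (hRU _ _)).mul_left 4
    rw [hR, Finset.mem_image]
    refine ⟨p, ?_, rfl⟩
    rw [hRn, Finset.mem_filter, Nat.mem_primeFactors]
    exact ⟨⟨hp, hpW, by omega⟩, hpa, hpT⟩
  have hgood := good_ge hPell hm a b0 ha0 _ hsum hFa hdv
  have hea : ∀ᶠ X : ℕ in atTop, a ≤ (X : ℤ) ^ 2 := by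
    filter_upwards [eventually_ge_atTop a.toNat] with X hX
    have h1 : a ≤ X := by omega
    have h2 : (X : ℤ) ≤ (X : ℤ) ^ 2 := by nlinarith
    linarith
  have hboth := hgood.and hea
  rw [eventually_atTop] at hboth
  obtain ⟨X₀, hX₀⟩ := hboth
  refine ⟨X₀, fun X hX => ?_⟩
  obtain ⟨h1, haX⟩ := hX₀ X hX
  have hsub : (((Bb X m b0).filter fun b => Squarefree (dsc a b) : Finset ℤ) : Set ℤ) ⊆
      {b : ℤ | Fam X S s T A B a b ∧ (4 : ℤ) ∣ a - b} := by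
    intro b hb
    rw [Finset.mem_coe, Finset.mem_filter] at hb
    obtain ⟨hb1, hb2⟩ := hb
    unfold Bb at hb1
    simp only [Finset.mem_filter, Finset.mem_Ioc] at hb1
    obtain ⟨⟨h4, h5⟩, h6⟩ := hb1
    obtain ⟨r1, r2, r3, r4⟩ := hres b h6
    exact ⟨⟨ha0, haX, abs_le.2 ⟨by linarith, h5⟩, haS, r2, haT, r3, hb2⟩, r1⟩
  have hfin : {b : ℤ | Fam X S s T A B a b ∧ (4 : ℤ) ∣ a - b}.Finite := by
    apply Set.Finite.subset (((Finset.Icc (-(X : ℤ) ^ 3) ((X : ℤ) ^ 3)) : Finset ℤ).finite_toSet)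
    intro b hb
    rw [Finset.mem_coe, Finset.mem_Icc]
    exact abs_le.1 hb.1.db
  have h2 : (((Bb X m b0).filter fun b => Squarefree (dsc a b)).card : ℝ) ≤
      ({b : ℤ | Fam X S s T A B a b ∧ (4 : ℤ) ∣ a - b}.ncard : ℝ) := by
    have := Set.ncard_le_ncard hsub hfin
    rw [Set.ncard_coe_finset] at this
    exact_mod_cast this
  -- the modulus
  have hprodT : (0 : ℝ) < ∏ P ∈ T, (P : ℝ) :=
    Finset.prod_pos fun P hP => by exact_mod_cast (hT.2.2 P hP).1.1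
  have hprodS : (0 : ℝ) < ∏ Q ∈ S, (Q : ℝ) :=
    Finset.prod_pos fun Q hQ => by exact_mod_cast (hS Q hQ).1.1
  have hprodR : (∏ Q ∈ R, (Q : ℝ)) ≤ W := by
    have h3 : (∏ Q ∈ R, (Q : ℝ)) = ((∏ p ∈ Rn, p : ℕ) : ℝ) := by
      rw [hR, Finset.prod_image (fun p _ q _ h => by exact_mod_cast h)]
      push_cast
      rfl
    rw [h3]
    have h4 : ∏ p ∈ Rn, p ∣ W := by
      refine (Finset.prod_dvd_prod_of_subset Rn W.primeFactors (fun p => p) ?_).trans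
        (Nat.prod_primeFactors_dvd W)
      rw [hRn]
      exact Finset.filter_subset _ _
    exact_mod_cast Nat.le_of_dvd hW h4
  have hm2 : (m : ℝ) = 2 * ((∏ Q ∈ S, (Q : ℝ)) * (∏ P ∈ T, (P : ℝ)) * ∏ Q ∈ R, (Q : ℝ)) := by
    have h3 : (2 : ℤ) * M = ∏ Q ∈ U, Q := by
      rw [hM]
      exact Finset.mul_prod_erase U (fun Q : ℤ => Q) h2U
    have h4 : m = 2 * ∏ Q ∈ U, Q := by
      rw [← h3, hmdef]
      ring
    have h5 : ∏ Q ∈ U, Q = (∏ Q ∈ S, Q) * (∏ P ∈ T, P) * ∏ Q ∈ R, Q := by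
      rw [hU, Finset.prod_union, Finset.prod_union hST]
      rw [Finset.disjoint_left]
      intro Q hQ hQR
      rw [Finset.mem_union] at hQ
      rcases hQ with h | h
      · exact (hRS Q hQR).1 h
      · exact (hRS Q hQR).2 h
    rw [h4, h5]
    push_cast
    ring
  have h3 : (X : ℝ) ^ 3 ≤ 4 * m *
      ({b : ℤ | Fam X S s T A B a b ∧ (4 : ℤ) ∣ a - b}.ncard : ℝ) := by
    have hmR : (0 : ℝ) < m := by exact_mod_cast hm
    exact h1.trans (mul_le_mul_of_nonneg_left h2 (by positivity))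
  refine h3.trans ?_
  apply mul_le_mul_of_nonneg_right _ (Nat.cast_nonneg _)
  rw [hm2]
  have h5 : (∏ Q ∈ S, (Q : ℝ)) * (∏ P ∈ T, (P : ℝ)) * ∏ Q ∈ R, (Q : ℝ) ≤
      (∏ Q ∈ S, (Q : ℝ)) * (∏ P ∈ T, (P : ℝ)) * W :=
    mul_le_mul_of_nonneg_left hprodR (by positivity)
  have h6 : 0 ≤ (∏ Q ∈ S, (Q : ℝ)) * (∏ P ∈ T, (P : ℝ)) * W := by positivity
  nlinarith

end Pool.Agent.L0h71.LR
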